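import Pool.Agent.Seat68.RC.Final2

/-!
There is a universal machine `U` such that the halting problem, and in fact every recursively
enumerable set, is decided in polynomial time with the set of `C_U`-random strings as an oracle.
-/

set_option autoImplicit false

namespace Pool.Agent.Results.MP_90f04a_lc.HaltInPRandom

open Pool.Agent.Seat68.RC Encodable
open Nat.Partrec (Code)

/-- `U` is a universal machine: a partial computable function on binary strings such that every
partial computable `M` satisfies `U (d ++ p) = M p` for all `p`, for some string `d`. -/
def Universal (U : List Bool →. List Bool) : Prop :=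
  Partrec U ∧ ∀ M : List Bool →. List Bool, Partrec M → ∃ d, ∀ p, U (d ++ p) = M p

/-- Plain Kolmogorov complexity relative to `U`. -/
noncomputable def C (U : List Bool →. List Bool) (x : List Bool) : ℕ :=
  sInf {n | ∃ p : List Bool, p.length = n ∧ x ∈ U p}

/-- The set of the `C_U`-random strings. -/
def Random (U : List Bool →. List Bool) : Set (List Bool) := {x | x.length ≤ C U x}

/-- The pair of the binary strings `u` and `w`: every bit of `u` is preceded by a one, then come a
zero and `w`. -/
def pairing (u w : List Bool) : List Bool := u.flatMap (fun b => [true, b]) ++ false :: w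

/-- The halting problem: the pairs of the binary expansion of the number of a program and an
input string on which it halts. -/
def HALT : Set (List Bool) :=
  {z | ∃ (c : Code) (w : List Bool), z = pairing (Nat.bits (encode c)) w ∧
    (c.eval (encode w)).Dom}

theorem mem_Random {U : List Bool →. List Bool} (hU : Universal U) (z : List Bool) :
    z ∈ Random U ↔ ∀ p, z ∈ U p → z.length ≤ p.length := by
  obtain ⟨d, hd⟩ := hU.2 (fun _ => Part.some z) (Computable.const z)
  have hne : {n | ∃ p : List Bool, p.length = n ∧ z ∈ U p}.Nonempty :=
    ⟨(d ++ []).length, d ++ [], rfl, by rw [hd []]; exact Part.mem_some z⟩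
  constructor
  · intro h p hp
    exact le_trans h (Nat.sInf_le ⟨p, rfl, hp⟩)
  · intro h
    obtain ⟨p, hp, hz⟩ := Nat.sInf_mem hne
    have e : C U z = p.length := hp.symm
    show z.length ≤ C U z
    rw [e]
    exact h p hz

/-- **There is a universal machine `U` such that the halting problem, and in fact every
recursively enumerable set, is in `P` with the oracle of the `C_U`-random strings.** -/
theorem result : ∃ U : List Bool →. List Bool, Universal U ∧ InPOracle (Random U) HALT ∧
    ∀ A : Set (List Bool), REPred (fun z => z ∈ A) → InPOracle (Random U) A := by
  obtain ⟨U, hU, hUu, h⟩ := main2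
  have e : Random U = {z | ∀ p, z ∈ U p → z.length ≤ p.length} :=
    Set.ext fun z => mem_Random ⟨hU, hUu⟩ z
  rw [← e] at h
  exact ⟨U, ⟨hU, hUu⟩, h HALT reHalt, h⟩

end Pool.Agent.Results.MP_90f04a_lc.HaltInPRandom
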